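import Pool.Agent.Helper76.TX.StAn

/-! # Project TX, module AN2: the period integral is the potential difference -/

set_option autoImplicit false

namespace Pool.Agent.Helper7.TX

open Pool.Agent.Helper76.TX Pool.Agent.Helper14.CV Filter Topology MeasureTheory Set UpperHalfPlane
open scoped MatrixGroups Real

theorem hAN2 : StAN2 := by
  intro h1 hAN1 N hN f G D u hD hG
  have hD0 : (D : ℂ) ≠ 0 := by exact_mod_cast hD.ne'
  have hDR : (0 : ℝ) < (D : ℝ) := by exact_mod_cast hD
  obtain ⟨hc, ht, hb⟩ := hAN1 N hN f D u hD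
  -- integrability
  have hM1 : MellinConvergent (hU D f u) 1 := by
    refine mellinConvergent_of_isBigO_rpow_exp (a := 2 * Real.pi) (b := 0)
      (by have := Real.pi_pos; positivity) ?_ ht (hb 0) (by simp)
    exact hc.locallyIntegrableOn measurableSet_Ioi
  have hpow : ∀ t : ℝ, 0 < t → ((t : ℂ) ^ ((1 : ℂ) - 1)) • hU D f u t = hU D f u t := by
    intro t ht
    rw [sub_self, Complex.cpow_zero, one_smul]
  have hint : IntegrableOn (hU D f u) (Ioi 0) :=
    (show IntegrableOn (fun t : ℝ => ((t : ℂ) ^ ((1 : ℂ) - 1)) • hU D f u t) (Ioi (0 : ℝ)) volume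
      from hM1).congr_fun (fun t ht => hpow t ht) measurableSet_Ioi
  -- the primitive
  let F : ℝ → ℂ := fun y => if y ≤ 0 then G u D else Fp f ((u : ℂ) / (D : ℂ) + (y : ℂ) * Complex.I)
  have hF0 : F 0 = G u D := if_pos le_rfl
  have hFpos : ∀ y : ℝ, 0 < y → F y = Fp f ((u : ℂ) / (D : ℂ) + (y : ℂ) * Complex.I) :=
    fun y hy => if_neg (not_le.2 hy)
  have him : ∀ x : ℝ, ((u : ℂ) / (D : ℂ) + (x : ℂ) * Complex.I).im = x := by
    intro x
    have e : ((u : ℂ) / (D : ℂ)) = (((u : ℝ) / (D : ℝ) : ℝ) : ℂ) := by push_cast; rfl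
    rw [e]
    simp
  have hder : ∀ x ∈ Ioi (0 : ℝ), HasDerivAt F (-(2 * Real.pi : ℂ) * hU D f u x) x := by
    intro x hx
    have hx0 : 0 < ((u : ℂ) / (D : ℂ) + (x : ℂ) * Complex.I).im := by rw [him]; exact hx
    have h2 := (h1 N hN f _ hx0).2.2
    have h3 : HasDerivAt (fun y : ℝ => (u : ℂ) / (D : ℂ) + (y : ℂ) * Complex.I) Complex.I x := by
      have := ((Complex.ofRealCLM.hasDerivAt (x := x)).mul_const Complex.I).const_add
        ((u : ℂ) / (D : ℂ))
      simpa using this
    have h4 := h2.comp x h3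
    have h5 : HasDerivAt (fun y : ℝ => Fp f ((u : ℂ) / (D : ℂ) + (y : ℂ) * Complex.I))
        (-(2 * Real.pi : ℂ) * hU D f u x) x := by
      have e1 : -(2 * Real.pi : ℂ) * hU D f u x =
          2 * Real.pi * Complex.I * fz f ((u : ℂ) / (D : ℂ) + (x : ℂ) * Complex.I) * Complex.I := by
        have : Complex.I * Complex.I = -1 := Complex.I_mul_I
        unfold hU
        linear_combination
          (-(2 * (Real.pi : ℂ) * fz f ((u : ℂ) / (D : ℂ) + (x : ℂ) * Complex.I))) * this
      rw [e1]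
      exact h4
    refine h5.congr_of_eventuallyEq ?_
    filter_upwards [Ioi_mem_nhds hx] with y hy
    exact hFpos y hy
  have htop : Tendsto F atTop (𝓝 (G 1 0)) := by
    have h2 := hG 1 0 0 1 (by norm_num) ((u : ℝ) / (D : ℝ))
    refine h2.congr' ?_
    filter_upwards [eventually_gt_atTop 0] with y hy
    rw [hFpos y hy]
    congr 1
    push_cast
    simp
  have hcont : ContinuousWithinAt F (Ici 0) 0 := by
    have h2 := hG (u : ℤ) (-1) (D : ℤ) 0 (by
      have : (0 : ℤ) < (D : ℤ) := by exact_mod_cast hD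
      linarith) 0
    have h3 : Tendsto F (𝓝[>] 0) (𝓝 (G u D)) := by
      have h6 : Tendsto (fun t : ℝ => (D : ℝ)⁻¹ * t⁻¹) (𝓝[>] 0) atTop :=
        (tendsto_inv_nhdsGT_zero (𝕜 := ℝ)).const_mul_atTop (inv_pos.2 hDR)
      have h4 := h2.comp h6
      refine h4.congr' ?_
      filter_upwards [self_mem_nhdsWithin] with y hy
      have hy' : (0 : ℝ) < y := hy
      rw [hFpos y hy']
      show Fp f _ = _
      congr 1
      have hy0 : (y : ℂ) ≠ 0 := by exact_mod_cast hy'.ne'
      have hI : Complex.I ≠ 0 := Complex.I_ne_zero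
      have hI2 : Complex.I ^ 2 = -1 := Complex.I_sq
      push_cast
      rw [div_eq_iff]
      · field_simp
        linear_combination (-(y : ℂ) * D) * hI2
      · simp only [zero_add, add_zero]
        exact mul_ne_zero hD0 (mul_ne_zero (mul_ne_zero (inv_ne_zero hD0) (inv_ne_zero hy0)) hI)
    rw [← Ioi_insert, continuousWithinAt_insert_self]
    show Tendsto F (𝓝[>] 0) (𝓝 (F 0))
    rw [hF0]
    exact h3
  have hmain := integral_Ioi_of_hasDerivAt_of_tendsto hcont hder (hint.const_mul _) htop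
  rw [integral_const_mul, hF0] at hmain
  linear_combination -hmain

end Pool.Agent.Helper7.TX
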